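import Pool.Agent.helper48.EL.StageA
import Pool.Agent.helper16.Multibrot.Area

/-!
EL project (MP_af9036_an, helper48), module M1.
-/

set_option autoImplicit false

open Metric Set Filter Complex MeasureTheory Topology

namespace Pool.Agent.helper48.EL

open Pool.Agent.helper98.ILF Pool.Agent.helper16.Multibrot

/-- The one-dimensional slices. -/
theorem M1_slice (v κ : ℝ) {ρ ε : ℝ} (hρ2 : ρ ≤ 1 / 2) (hε : 0 ≤ ε) :
    volume {b : ℝ | b ∈ Icc (v - ρ) (v + ρ) ∧ |2 * Real.cos b + κ| ≤ ε} ≤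
      ENNReal.ofReal (2 * (Real.pi * Real.sqrt (ε / 2))) := by
  have hpi := Real.pi_pos
  have hpi3 := Real.pi_gt_three
  set m : ℤ := ⌊(v - ρ) / Real.pi⌋ with hm
  let P : ℤ → Set ℝ := fun k => {b : ℝ | (k : ℝ) * Real.pi ≤ b ∧ b ≤ ((k : ℝ) + 1) * Real.pi ∧
    |2 * Real.cos b + κ| ≤ ε}
  have hcover : {b : ℝ | b ∈ Icc (v - ρ) (v + ρ) ∧ |2 * Real.cos b + κ| ≤ ε} ⊆
      P m ∪ P (m + 1) := by
    rintro b ⟨⟨h1, h2⟩, h3⟩
    have e1 : (m : ℝ) * Real.pi ≤ v - ρ := by
      have := Int.floor_le ((v - ρ) / Real.pi)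
      rwa [← hm, le_div_iff₀ hpi] at this
    have e2 : v - ρ < ((m : ℝ) + 1) * Real.pi := by
      have := Int.lt_floor_add_one ((v - ρ) / Real.pi)
      rwa [← hm, div_lt_iff₀ hpi] at this
    rcases le_total b (((m : ℝ) + 1) * Real.pi) with h4 | h4
    · exact Or.inl ⟨by linarith, h4, h3⟩
    · refine Or.inr ⟨by push_cast; linarith, ?_, h3⟩
      push_cast
      linarith
  have hpiece : ∀ k, volume (P k) ≤ ENNReal.ofReal (Real.pi * Real.sqrt (ε / 2)) := by
    intro k
    refine (Real.volume_le_diam _).trans ?_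
    apply Metric.ediam_le
    intro θ hθ θ' hθ'
    obtain ⟨a1, a2, a4⟩ := hθ
    obtain ⟨b1, b2, b4⟩ := hθ'
    rw [edist_dist]
    apply ENNReal.ofReal_le_ofReal
    rw [Real.dist_eq]
    have e : ∀ t : ℝ, Real.cos (t - k * Real.pi) = (-1) ^ k * Real.cos t := by
      intro t
      rw [Real.cos_sub_int_mul_pi]
    have hab : |Real.cos (θ - k * Real.pi) - Real.cos (θ' - k * Real.pi)| ≤ ε := by
      rw [e, e, ← mul_sub, abs_mul, abs_zpow, abs_neg, abs_one, one_zpow, one_mul, abs_le]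
      rw [abs_le] at a4 b4
      constructor <;> linarith [a4.1, a4.2, b4.1, b4.2]
    have h := cos_gap_abs (by linarith) (by linarith) (by linarith) (by linarith) hab
    have e2 : θ - k * Real.pi - (θ' - k * Real.pi) = θ - θ' := by ring
    rwa [e2] at h
  calc _ ≤ volume (P m ∪ P (m + 1)) := measure_mono hcover
    _ ≤ volume (P m) + volume (P (m + 1)) := measure_union_le _ _
    _ ≤ ENNReal.ofReal (Real.pi * Real.sqrt (ε / 2)) + ENNReal.ofReal (Real.pi * Real.sqrt (ε / 2)) :=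
        add_le_add (hpiece _) (hpiece _)
    _ = _ := by
        rw [← ENNReal.ofReal_add (by positivity) (by positivity), two_mul]

/-- el:M1. -/
theorem volume_cos_strip (w : ℂ) (n : ℕ) {ρ ε : ℝ} (hρ : 0 ≤ ρ) (hρ2 : ρ ≤ 1 / 2) (hε : 0 ≤ ε) :
    volume {z : ℂ | z ∈ closedBall w ρ ∧ |2 * Real.cos z.im + Real.exp z.re / n| ≤ ε} ≤
      ENNReal.ofReal (5 * Real.sqrt ε) := by
  set S : Set ℂ := {z : ℂ | z ∈ closedBall w ρ ∧ |2 * Real.cos z.im + Real.exp z.re / n| ≤ ε}
    with hS
  have hSm : MeasurableSet S := by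
    apply MeasurableSet.inter isClosed_closedBall.measurableSet
    have hf : Continuous fun z : ℂ => |2 * Real.cos z.im + Real.exp z.re / n| := by fun_prop
    exact (isClosed_le hf continuous_const).measurableSet
  have hmp := Complex.volume_preserving_equiv_real_prod.symm
  rw [← hmp.measure_preimage_equiv S, Measure.volume_eq_prod,
    Measure.prod_apply (measurableEquivRealProd.symm.measurable hSm)]
  set M : ENNReal := ENNReal.ofReal (2 * (Real.pi * Real.sqrt (ε / 2))) with hM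
  have hle : ∀ a : ℝ, volume (Prod.mk a ⁻¹' (measurableEquivRealProd.symm ⁻¹' S)) ≤
      (Icc (w.re - ρ) (w.re + ρ)).indicator (fun _ => M) a := by
    intro a
    have hsub : Prod.mk a ⁻¹' (measurableEquivRealProd.symm ⁻¹' S) ⊆
        {b : ℝ | b ∈ Icc (w.im - ρ) (w.im + ρ) ∧ |2 * Real.cos b + Real.exp a / n| ≤ ε} ∩
        {_b : ℝ | a ∈ Icc (w.re - ρ) (w.re + ρ)} := by
      intro b hb
      obtain ⟨h1, h2⟩ := hb
      rw [mem_closedBall, dist_eq_norm] at h1
      have e1 := (Complex.abs_re_le_norm _).trans h1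
      have e2 := (Complex.abs_im_le_norm _).trans h1
      rw [Complex.sub_re, abs_le] at e1
      rw [Complex.sub_im, abs_le] at e2
      have e3 : (measurableEquivRealProd.symm (a, b)).re = a := rfl
      have e4 : (measurableEquivRealProd.symm (a, b)).im = b := rfl
      rw [e3] at e1
      rw [e4] at e2
      rw [e3, e4] at h2
      exact ⟨⟨⟨by linarith [e2.1], by linarith [e2.2]⟩, h2⟩, ⟨by linarith [e1.1], by linarith [e1.2]⟩⟩
    by_cases ha : a ∈ Icc (w.re - ρ) (w.re + ρ)
    · rw [indicator_of_mem ha]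
      exact (measure_mono (hsub.trans inter_subset_left)).trans (M1_slice _ _ hρ2 hε)
    · rw [indicator_of_notMem ha]
      have : Prod.mk a ⁻¹' (measurableEquivRealProd.symm ⁻¹' S) = ∅ := by
        apply eq_empty_of_subset_empty
        intro b hb
        exact ha (hsub hb).2
      rw [this]
      simp
  refine (lintegral_mono hle).trans ?_
  rw [lintegral_indicator measurableSet_Icc, setLIntegral_const, Real.volume_Icc, hM,
    ← ENNReal.ofReal_mul (by positivity)]
  apply ENNReal.ofReal_le_ofReal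
  have h1 : w.re + ρ - (w.re - ρ) ≤ 1 := by linarith
  have hpi := Real.pi_pos
  have hpi4 := Real.pi_lt_d2
  have h2 : 2 * (Real.pi * Real.sqrt (ε / 2)) ≤ 5 * Real.sqrt ε := by
    rw [Real.sqrt_div hε, mul_div_assoc', mul_div_assoc', div_le_iff₀ (Real.sqrt_pos.mpr two_pos)]
    have h3 : (1.4 : ℝ) ≤ Real.sqrt 2 := by
      apply Real.le_sqrt_of_sq_le
      norm_num
    have h4 := Real.sqrt_nonneg ε
    nlinarith
  calc 2 * (Real.pi * Real.sqrt (ε / 2)) * (w.re + ρ - (w.re - ρ))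
      ≤ 2 * (Real.pi * Real.sqrt (ε / 2)) * 1 := mul_le_mul_of_nonneg_left h1 (by positivity)
    _ ≤ _ := by linarith

end Pool.Agent.helper48.EL
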