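import Pool.Agent.helper48.EL.StageA
import Pool.Agent.helper16.Multibrot.Bounds
import Pool.Agent.helper16.Multibrot.Final

/-!
EL project (MP_af9036_an, helper48), module M6.
-/

set_option autoImplicit false

open Metric Set Filter Complex MeasureTheory Topology

namespace Pool.Agent.helper48.EL

open Pool.Agent.helper98.ILF Pool.Agent.helper16.Multibrot

/-- el:M6. -/
theorem tendsto_collar : Tendsto (fun n : ℕ => (n : ENNReal) *
    volume (collar (n - 1) (Real.log n ^ 4 / n) (Real.log n / n))) atTop (𝓝 0) := by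
  have hcast : Tendsto (fun n : ℕ => (n : ℝ)) atTop atTop := tendsto_natCast_atTop_atTop
  have hlog : Tendsto (fun n : ℕ => Real.log n) atTop atTop := Real.tendsto_log_atTop.comp hcast
  have hpow : ∀ k : ℕ, Tendsto (fun n : ℕ => Real.log n ^ k / (n : ℝ)) atTop (𝓝 0) := by
    intro k
    have := (Real.isLittleO_pow_log_id_atTop (n := k)).tendsto_div_nhds_zero
    exact this.comp hcast
  have h4 := hpow 4
  have h1 := hpow 1
  simp only [pow_one] at h1
  have hupper : Tendsto (fun n : ℕ => ENNReal.ofReal (32 * Real.pi * Real.sqrt (10 / Real.log n)))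
      atTop (𝓝 0) := by
    have e1 : Tendsto (fun n : ℕ => 10 / Real.log n) atTop (𝓝 0) := hlog.const_div_atTop 10
    have e2 : Tendsto (fun n : ℕ => 32 * Real.pi * Real.sqrt (10 / Real.log n)) atTop (𝓝 0) := by
      have := (Real.continuous_sqrt.tendsto 0).comp e1
      rw [Real.sqrt_zero] at this
      have := this.const_mul (32 * Real.pi)
      rw [mul_zero] at this
      exact this
    have := (ENNReal.continuous_ofReal.tendsto 0).comp e2
    rw [ENNReal.ofReal_zero] at this
    exact this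
  refine tendsto_of_tendsto_of_tendsto_of_le_of_le' tendsto_const_nhds hupper
    (Eventually.of_forall fun _ => zero_le) ?_
  filter_upwards [hlog.eventually_ge_atTop 1, h4.eventually_le_const (by norm_num : (0 : ℝ) < 2),
    h1.eventually_le_const (by norm_num : (0 : ℝ) < 1 / 16), eventually_ge_atTop 2]
    with n hl hd hL hn
  have hnR : (2 : ℝ) ≤ n := by exact_mod_cast hn
  have hn0 : (0 : ℝ) < n := by linarith
  have hN : 1 ≤ n - 1 := by omega
  set N := n - 1 with hNdef
  have hNR : (1 : ℝ) ≤ N := by exact_mod_cast hN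
  have hNn : (n : ℝ) ≤ 2 * N := by
    have : n ≤ 2 * N := by omega
    exact_mod_cast this
  set ℓ := Real.log n with hℓ
  have hℓ0 : 0 < ℓ := by linarith
  have hδ0 : 0 < ℓ ^ 4 / n := by positivity
  have hL0 : 0 < ℓ / n := by positivity
  have hv := volume_collar hN hδ0 hd hL0 (by linarith)
  have hpi := Real.pi_pos
  refine (mul_le_mul_right hv _).trans ?_
  rw [← ENNReal.ofReal_natCast, ← ENNReal.ofReal_mul hn0.le]
  apply ENNReal.ofReal_le_ofReal
  have e1 : 20 * (ℓ / n) / (ℓ ^ 4 / n) / 2 = 10 / ℓ ^ 3 := by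
    field_simp
    norm_num
  have e2 := exp_sub_le (2 * Real.log 2 / N) (2 * Real.log (ℓ ^ 4 / n) / N)
  rw [rad_sq, rad_sq, e1]
  have hlogδ : -ℓ ≤ Real.log (ℓ ^ 4 / n) := by
    rw [Real.log_div (by positivity) (by positivity), ← hℓ]
    have : 0 ≤ Real.log (ℓ ^ 4) := Real.log_nonneg (one_le_pow₀ hl)
    linarith
  have hl2 : Real.log 2 < 1 := by
    have := Real.log_two_lt_d9
    linarith
  have hl20 : 0 < Real.log 2 := Real.log_pos (by norm_num)
  have e3 : Real.exp (2 * Real.log 2 / N) ≤ 4 := by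
    have h : 2 * Real.log 2 / N ≤ 2 * Real.log 2 := div_le_self (by positivity) hNR
    calc Real.exp (2 * Real.log 2 / N) ≤ Real.exp (2 * Real.log 2) := Real.exp_le_exp.mpr h
      _ = 4 := by
        rw [two_mul, Real.exp_add, Real.exp_log (by norm_num)]
        norm_num
  have e4 : 2 * Real.log 2 / N - 2 * Real.log (ℓ ^ 4 / n) / N ≤ 8 * ℓ / n := by
    rw [← sub_div, div_le_div_iff₀ (by linarith) hn0]
    have h : 2 * Real.log 2 - 2 * Real.log (ℓ ^ 4 / n) ≤ 4 * ℓ := by linarith
    calc (2 * Real.log 2 - 2 * Real.log (ℓ ^ 4 / n)) * n ≤ 4 * ℓ * n :=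
          mul_le_mul_of_nonneg_right h hn0.le
      _ ≤ 4 * ℓ * (2 * N) := mul_le_mul_of_nonneg_left hNn (by positivity)
      _ = 8 * ℓ * N := by ring
  have e5 : Real.exp (2 * Real.log 2 / N) - Real.exp (2 * Real.log (ℓ ^ 4 / n) / N) ≤
      4 * (8 * ℓ / n) :=
    e2.trans ((mul_le_mul_of_nonneg_left e4 (Real.exp_pos _).le).trans
      (mul_le_mul_of_nonneg_right e3 (by positivity)))
  have e6 : Real.sqrt (10 / ℓ ^ 3) * ℓ = Real.sqrt (10 / ℓ) := by
    rw [show (10 : ℝ) / ℓ = 10 / ℓ ^ 3 * ℓ ^ 2 by field_simp, Real.sqrt_mul (by positivity),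
      Real.sqrt_sq hℓ0.le]
  calc (n : ℝ) * (2 * Real.pi * Real.sqrt (10 / ℓ ^ 3) *
        (Real.exp (2 * Real.log 2 / N) - Real.exp (2 * Real.log (ℓ ^ 4 / n) / N)) / 2)
      ≤ n * (2 * Real.pi * Real.sqrt (10 / ℓ ^ 3) * (4 * (8 * ℓ / n)) / 2) := by
        apply mul_le_mul_of_nonneg_left _ hn0.le
        apply div_le_div_of_nonneg_right _ (by norm_num)
        exact mul_le_mul_of_nonneg_left e5 (by positivity)
    _ = 32 * Real.pi * (Real.sqrt (10 / ℓ ^ 3) * ℓ) := by
        field_simp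
        ring
    _ = 32 * Real.pi * Real.sqrt (10 / ℓ) := by rw [e6]

end Pool.Agent.helper48.EL
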